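import Pool.Agent.Lib.MP_354e85_al.L2C.Sup
import Pool.Agent.Lib.MP_354e85_al.L2C.JFin
import Pool.Agent.Lib.MP_354e85_al.L2C.JFour
import Pool.Agent.Lib.MP_354e85_al.L2B.Tor

set_option autoImplicit false

namespace Pool.Agent.Results.MP_354e85_al.BettiNumber

/-- `f` is a harmonic Dirichlet function of the Cayley graph of `G` with respect to `S`. -/
def IsHarmonicDirichlet {G : Type} [Group G] (S : Finset G) (f : G → ℝ) : Prop :=
  (∀ x : G, ∑ t ∈ S, (f (x * t) - f x) = 0) ∧
    Summable fun x : G => ∑ t ∈ S, (f (x * t) - f x) ^ 2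

/-- The squared norm of the gradient `(t, x) ↦ f (x * t) - f x` of `f` in `ℓ²(S × G)`. -/
noncomputable def energy {G : Type} [Group G] (S : Finset G) (f : G → ℝ) : ℝ :=
  ∑' x : G, ∑ t ∈ S, (f (x * t) - f x) ^ 2

/-- The first `ℓ²`-Betti number of the group generated by the finite symmetric set `S`: the
von Neumann dimension of the space `H` of the gradients of the harmonic Dirichlet functions, a
closed subspace of `ℓ²(S × G)` invariant under the left translations by `G`. This is the trace
`∑ s, ‖P δ_(s, 1)‖ ^ 2` of the orthogonal projection `P` to `H`, and `‖P δ_(s, 1)‖ ^ 2` is the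
supremum of the squares `⟪ω, δ_(s, 1)⟫ ^ 2 = (f s - f 1) ^ 2` for the elements `ω` of `H`,
gradients of `f`, of norm at most one (see `firstBetti_eq_trace`). -/
noncomputable def firstBetti {G : Type} [Group G] (S : Finset G) : ℝ :=
  ∑ s ∈ S, sSup {r : ℝ | ∃ f : G → ℝ, IsHarmonicDirichlet S f ∧ energy S f ≤ 1 ∧
    r = (f s - f 1) ^ 2}

/-- `G` has a paradoxical decomposition, by left translations, with at most `k` pieces. -/
def TarskiNumberLE (G : Type) [Group G] (k : ℕ) : Prop :=
  ∃ m n : ℕ, m + n ≤ k ∧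
    ∃ (A : Fin m → Set G) (B : Fin n → Set G) (g : Fin m → G) (h : Fin n → G),
      (∀ x : G, ∃! p : Fin m ⊕ Fin n, x ∈ Sum.elim A B p) ∧
      (∀ x : G, ∃! i : Fin m, (g i)⁻¹ * x ∈ A i) ∧
      (∀ x : G, ∃! j : Fin n, (h j)⁻¹ * x ∈ B j)

/-- The definition of `firstBetti` is the trace of the projection to the space of gradients of
harmonic Dirichlet functions (`Lib.MP_354e85_al.L2B.dm`, `Lib.MP_354e85_al.L2B.HD`). -/
theorem firstBetti_eq_trace {G : Type} [Group G] (S : Finset G) (hS : ∀ s ∈ S, s⁻¹ ∈ S)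
    (h : Subgroup.closure (S : Set G) = ⊤) :
    firstBetti S = Lib.MP_354e85_al.L2B.dm
      (Lib.MP_354e85_al.L2B.HD (fun s : {s // s ∈ S} => (s : G))) := by
  rw [Lib.MP_354e85_al.L2C.dm_sup S hS h]
  unfold firstBetti IsHarmonicDirichlet energy
  simp only [and_assoc]

/-- A finitely generated group with positive first `ℓ²`-Betti number has Tarski number at most six,
at most five if and only if it has an element of infinite order, and four if and only if it has a
free subgroup of rank two. -/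
theorem result :
    ∀ (G : Type) [Group G] (S : Finset G), (∀ s ∈ S, s⁻¹ ∈ S) →
      Subgroup.closure (S : Set G) = ⊤ → 0 < firstBetti S →
      TarskiNumberLE G 6 ∧
        (TarskiNumberLE G 5 ↔ ∃ a : G, ∀ n : ℕ, 0 < n → a ^ n ≠ 1) ∧
        (TarskiNumberLE G 4 ↔ ∃ f : FreeGroup (Fin 2) →* G, Function.Injective f) := by
  intro G _ S hS hgen hb
  rw [firstBetti_eq_trace S hS hgen] at hb
  refine ⟨Lib.MP_354e85_al.L2C.main_set S hS hgen hb, ⟨fun h5 => ?_, ?_⟩,
    Lib.MP_354e85_al.L2C.tarski_four_iff⟩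
  · by_contra hcon
    push Not at hcon
    exact Lib.MP_354e85_al.L2B.tor hcon h5
  · rintro ⟨a, ha⟩
    exact Lib.MP_354e85_al.L2C.main_five (fun s : {s // s ∈ S} => (s : G))
      (Lib.MP_354e85_al.L2C.gen_of_closure S hS hgen)
      (fun s : {s // s ∈ S} => ⟨(s : G)⁻¹, hS s s.2⟩)
      (fun s => Subtype.ext (inv_inv (s : G))) (fun s => rfl) hb a ha

end Pool.Agent.Results.MP_354e85_al.BettiNumber
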