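import Pool.Agent.Lib.MP_354e85_al.HN.Upper
import Pool.Agent.Lib.MP_354e85_al.HN.Exact

open MeasureTheory

namespace Pool.Agent.Results.MP_354e85_al.HalfNumber

/-- The cost of `G` is at least `1 + ε`: for every essentially free measure preserving action of
`G` on `[0, 1]`, every graphing generating the orbit relation has cost at least `1 + ε`. -/
def CostGE (G : Type) [Group G] (ε : ℝ) : Prop :=
  ∀ (a : G → ℝ → ℝ),
    (∀ x, a 1 x = x) →
    (∀ g h x, a (g * h) x = a g (a h x)) →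
    (∀ g, MeasurePreserving (a g) (volume.restrict (Set.Icc (0:ℝ) 1))
      (volume.restrict (Set.Icc (0:ℝ) 1))) →
    (∀ g, g ≠ 1 → volume.restrict (Set.Icc (0:ℝ) 1) {x | a g x = x} = 0) →
    ∀ (A : ℕ → Set ℝ) (φ : ℕ → ℝ → ℝ),
      (∀ i, MeasurableSet (A i)) →
      (∀ i, Measurable (φ i)) →
      (∀ i, Set.InjOn (φ i) (A i)) →
      (∀ i x, x ∈ A i → ∃ g, φ i x = a g x) →
      (∀ᵐ x ∂(volume.restrict (Set.Icc (0:ℝ) 1)), ∀ g,
        Relation.ReflTransGen
          (fun y z => ∃ i, (y ∈ A i ∧ φ i y = z) ∨ (z ∈ A i ∧ φ i z = y)) x (a g x)) →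
      ENNReal.ofReal (1 + ε) ≤ ∑' i, volume.restrict (Set.Icc (0:ℝ) 1) (A i)

/-- The cost of `G` is greater than one. -/
def CostGtOne (G : Type) [Group G] : Prop := ∃ ε : ℝ, 0 < ε ∧ CostGE G ε

/-- A paradoxical decomposition of `G` with `m` pieces in the first half and `n` pieces in the
second half. -/
def Paradoxical (G : Type) [Group G] (m n : ℕ) : Prop :=
  ∃ (A : Fin m → Set G) (B : Fin n → Set G) (g : Fin m → G) (h : Fin n → G),
    (∀ x : G, ∃! p : Fin m ⊕ Fin n, x ∈ Sum.elim A B p) ∧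
    (∀ x : G, ∃! i : Fin m, (g i)⁻¹ * x ∈ A i) ∧
    (∀ x : G, ∃! j : Fin n, (h j)⁻¹ * x ∈ B j)

/-- The Tarski half number of `G` is at most `k`. -/
def HalfNumberLE (G : Type) [Group G] (k : ℕ) : Prop :=
  ∃ m n : ℕ, min m n ≤ k ∧ Paradoxical G m n

/-- The Tarski half number of a group of cost greater than one is one more than the least number
of generators of an infinite subgroup. -/
theorem result :
    ∀ (G : Type) [Group G] [Countable G], CostGtOne G → ∀ n : ℕ,
      (HalfNumberLE G (n + 1) ↔ ∃ a : Fin n → G, Infinite (Subgroup.closure (Set.range a))) := by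
  intro G _ _ hcost n
  obtain ⟨ε, hε, hcost⟩ := hcost
  constructor
  · rintro ⟨p, q, hpq, h⟩
    rcases min_le_iff.1 hpq with h1 | h1
    · exact HNum.lower (HNum.ParadE.parad h) h1
    · exact HNum.lower (HNum.ParadE.parad (HNum.ParadE.symm h)) h1
  · rintro ⟨a, ha⟩
    obtain ⟨N, hN⟩ := HNum.upper hε hcost a ha
    exact ⟨n + 1, N, min_le_left _ _, hN.exact⟩

end Pool.Agent.Results.MP_354e85_al.HalfNumber
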