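import Pool.Agent.Lib.MP_354e85_al.Lim.ResidualR

open MeasureTheory

namespace Pool.Agent.Results.MP_354e85_al.ResidualLimits

/-- The cost of `G` is at least `1 + ε`: for every essentially free measure preserving action of
`G` on `[0, 1]`, every graphing generating the orbit relation has cost at least `1 + ε`. -/
def CostGE (G : Type) [Group G] (ε : ℝ) : Prop :=
  ∀ (a : G → ℝ → ℝ),
    (∀ x, a 1 x = x) →
    (∀ g h x, a (g * h) x = a g (a h x)) →
    (∀ g, MeasurePreserving (a g) (volume.restrict (Set.Icc (0:ℝ) 1))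
      (volume.restrict (Set.Icc (0:ℝ) 1))) →
    (∀ g, g ≠ 1 → volume.restrict (Set.Icc (0:ℝ) 1) {x | a g x = x} = 0) →
    ∀ (A : ℕ → Set ℝ) (φ : ℕ → ℝ → ℝ),
      (∀ i, MeasurableSet (A i)) →
      (∀ i, Measurable (φ i)) →
      (∀ i, Set.InjOn (φ i) (A i)) →
      (∀ i x, x ∈ A i → ∃ g, φ i x = a g x) →
      (∀ᵐ x ∂(volume.restrict (Set.Icc (0:ℝ) 1)), ∀ g,
        Relation.ReflTransGen
          (fun y z => ∃ i, (y ∈ A i ∧ φ i y = z) ∨ (z ∈ A i ∧ φ i z = y)) x (a g x)) →
      ENNReal.ofReal (1 + ε) ≤ ∑' i, volume.restrict (Set.Icc (0:ℝ) 1) (A i)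

/-- The Tarski number of `G` is at most `k`. -/
def TarskiNumberLE (G : Type) [Group G] (k : ℕ) : Prop :=
  ∃ m n : ℕ, m + n ≤ k ∧
    ∃ (A : Fin m → Set G) (B : Fin n → Set G) (g : Fin m → G) (h : Fin n → G),
      (∀ x : G, ∃! p : Fin m ⊕ Fin n, x ∈ Sum.elim A B p) ∧
      (∀ x : G, ∃! i : Fin m, (g i)⁻¹ * x ∈ A i) ∧
      (∀ x : G, ∃! j : Fin n, (h j)⁻¹ * x ∈ B j)

/-- `S` has an element of infinite order. -/
def HasInfiniteOrder {G : Type} [Group G] (S : Subgroup G) : Prop :=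
  ∃ a ∈ S, ∀ n : ℕ, 0 < n → a ^ n ≠ 1

theorem countable_of_fg (G : Type) [Group G] (h : Group.FG G) : Countable G := by
  obtain ⟨T, hT⟩ := Group.fg_iff'.1 h
  obtain ⟨T, hT1, hT2⟩ := hT
  let f : FreeGroup T →* G := FreeGroup.lift (fun t => (t : G))
  have hf : Function.Surjective f := by
    rw [← MonoidHom.range_eq_top]
    rw [FreeGroup.range_lift_eq_closure, ← hT2]
    congr 1
    ext x
    simp
  exact hf.countable

/-- Let `N i` be normal subgroups with trivial intersection of a finitely generated group `G` of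
cost at least `1 + ε`, and let `ε' < ε`. If every `G ⧸ N i` of cost at least `1 + ε' / 2` has
Tarski number at most `6`, then so has `G`. -/
theorem result :
    ∀ (G : Type) [Group G], Group.FG G →
      ∀ (ι : Type) (N : ι → Subgroup G) [∀ i, (N i).Normal], ⨅ i, N i = ⊥ →
        ∀ ε ε' : ℝ, 0 < ε → ε' < ε → CostGE G ε →
          ((∀ i, CostGE (G ⧸ N i) (ε' / 2) → TarskiNumberLE (G ⧸ N i) 6) →
            TarskiNumberLE G 6) ∧
          ((∀ i, CostGE (G ⧸ N i) (ε' / 2) → TarskiNumberLE (G ⧸ N i) 5) →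
            (∀ F : Finset ι, F.Nonempty → Infinite (⨅ i ∈ F, N i : Subgroup G) →
              HasInfiniteOrder (⨅ i ∈ F, N i)) →
              TarskiNumberLE G 5) := by
  intro G _ hfg ι N _ hbot ε ε' hε hε' hcost
  have hc := countable_of_fg G hfg
  refine ⟨fun hq => ?_, fun hq hord => ?_⟩
  · by_contra h6
    exact h6 (Pool.Agent.Lib.MP_354e85_al.Lim.residual_family hfg N (fun i => inferInstance)
      hbot ε ε' hε hε' hcost fun i hk => h6 (RLim.tarski_quotient (N i) (hq i hk))).1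
  · by_contra h5
    exact h5 ((Pool.Agent.Lib.MP_354e85_al.Lim.residual_family hfg N (fun i => inferInstance)
      hbot ε ε' hε hε' hcost fun i hk => h5 (RLim.tarski_quotient (N i) (hq i hk))).2 hord)

end Pool.Agent.Results.MP_354e85_al.ResidualLimits
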