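import Pool.Agent.Lib.MP_354e85_al.Lim.ResAmen

open MeasureTheory

namespace Pool.Agent.Results.MP_354e85_al.ResiduallyAmenable

/-- The cost of `G` is at least `1 + ε`: for every essentially free measure preserving action of
`G` on `[0, 1]`, every graphing generating the orbit relation has cost at least `1 + ε`. -/
def CostGE (G : Type) [Group G] (ε : ℝ) : Prop :=
  ∀ (a : G → ℝ → ℝ),
    (∀ x, a 1 x = x) →
    (∀ g h x, a (g * h) x = a g (a h x)) →
    (∀ g, MeasurePreserving (a g) (volume.restrict (Set.Icc (0:ℝ) 1))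
      (volume.restrict (Set.Icc (0:ℝ) 1))) →
    (∀ g, g ≠ 1 → volume.restrict (Set.Icc (0:ℝ) 1) {x | a g x = x} = 0) →
    ∀ (A : ℕ → Set ℝ) (φ : ℕ → ℝ → ℝ),
      (∀ i, MeasurableSet (A i)) →
      (∀ i, Measurable (φ i)) →
      (∀ i, Set.InjOn (φ i) (A i)) →
      (∀ i x, x ∈ A i → ∃ g, φ i x = a g x) →
      (∀ᵐ x ∂(volume.restrict (Set.Icc (0:ℝ) 1)), ∀ g,
        Relation.ReflTransGen
          (fun y z => ∃ i, (y ∈ A i ∧ φ i y = z) ∨ (z ∈ A i ∧ φ i z = y)) x (a g x)) →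
      ENNReal.ofReal (1 + ε) ≤ ∑' i, volume.restrict (Set.Icc (0:ℝ) 1) (A i)

/-- The cost of `G` is greater than one. -/
def CostGtOne (G : Type) [Group G] : Prop := ∃ ε : ℝ, 0 < ε ∧ CostGE G ε

/-- The Tarski number of `G` is at most `k`. -/
def TarskiNumberLE (G : Type) [Group G] (k : ℕ) : Prop :=
  ∃ m n : ℕ, m + n ≤ k ∧
    ∃ (A : Fin m → Set G) (B : Fin n → Set G) (g : Fin m → G) (h : Fin n → G),
      (∀ x : G, ∃! p : Fin m ⊕ Fin n, x ∈ Sum.elim A B p) ∧
      (∀ x : G, ∃! i : Fin m, (g i)⁻¹ * x ∈ A i) ∧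
      (∀ x : G, ∃! j : Fin n, (h j)⁻¹ * x ∈ B j)

/-- `G` has no paradoxical decomposition. -/
def Amenable (G : Type) [Group G] : Prop := ∀ k : ℕ, ¬ TarskiNumberLE G k

/-- `S` has an element of infinite order. -/
def HasInfiniteOrder {G : Type} [Group G] (S : Subgroup G) : Prop :=
  ∃ a ∈ S, ∀ n : ℕ, 0 < n → a ^ n ≠ 1

theorem countable_of_fg (G : Type) [Group G] (h : Group.FG G) : Countable G := by
  obtain ⟨T, hT⟩ := Group.fg_iff'.1 h
  obtain ⟨T, hT1, hT2⟩ := hT
  let f : FreeGroup T →* G := FreeGroup.lift (fun t => (t : G))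
  have hf : Function.Surjective f := by
    rw [← MonoidHom.range_eq_top]
    rw [FreeGroup.range_lift_eq_closure, ← hT2]
    congr 1
    ext x
    simp
  exact hf.countable

/-- Question 1 for residually amenable groups. -/
theorem result :
    ∀ (G : Type) [Group G], Group.FG G →
      (∀ g : G, g ≠ 1 → ∃ (N : Subgroup G) (_ : N.Normal), g ∉ N ∧ Amenable (G ⧸ N)) →
      CostGtOne G →
        TarskiNumberLE G 6 ∧
        ((∀ N : Subgroup G, N.Normal → Infinite N → HasInfiniteOrder N) →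
          TarskiNumberLE G 5) := by
  intro G _ hfg hres hcost
  have hc := countable_of_fg G hfg
  obtain ⟨ε, hε, hcost⟩ := hcost
  exact Pool.Agent.Lib.MP_354e85_al.Lim.residually_amenable hfg hres ε hε hcost

end Pool.Agent.Results.MP_354e85_al.ResiduallyAmenable
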